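import Pool.Agent.H20.RT.Stmts

/-! # Board `rt`, row PTY: parity -/

set_option autoImplicit false

namespace Pool.RT

namespace PTYAux

/-- `[g]` if `b = 1` -/
def bl (b g : ℕ) : List ℕ := if b = 1 then [g] else []

theorem bl_sum (b g : ℕ) (hb : b < 2) (f : ℕ → ℕ) : ((bl b g).map f).sum = b * f g := by
  unfold bl
  interval_cases b <;> simp

theorem bl_len (b g : ℕ) : (bl b g).length ≤ 1 := by
  unfold bl
  split_ifs <;> simp

theorem bl_mem (b g x : ℕ) (h : x ∈ bl b g) : x = g := by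
  unfold bl at h
  split_ifs at h <;> simp_all

end PTYAux

open PTYAux in
theorem PTY_thm : PTYStmt := by
  intro r hr
  have h1 := hr 1 (by norm_num) (by norm_num)
  have h2 := hr 2 (by norm_num) (by norm_num)
  have h3 := hr 3 (by norm_num) (by norm_num)
  have h4 := hr 4 (by norm_num) (by norm_num)
  have h5 := hr 5 (by norm_num) (by norm_num)
  have h6 := hr 6 (by norm_num) (by norm_num)
  have h7 := hr 7 (by norm_num) (by norm_num)
  have h8 := hr 8 (by norm_num) (by norm_num)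
  have h9 := hr 9 (by norm_num) (by norm_num)
  obtain ⟨b2, e2⟩ : ∃ b, b = (r 1 + r 4 + r 6 + r 8) % 2 := ⟨_, rfl⟩
  obtain ⟨b1, e1⟩ : ∃ b, b = (r 2 + b2) % 2 := ⟨_, rfl⟩
  obtain ⟨b3, e3⟩ : ∃ b, b = (r 3 + b2) % 2 := ⟨_, rfl⟩
  obtain ⟨b4, e4⟩ : ∃ b, b = (r 4 + b3) % 2 := ⟨_, rfl⟩
  obtain ⟨b5, e5⟩ : ∃ b, b = (r 5 + b4) % 2 := ⟨_, rfl⟩
  obtain ⟨b6, e6⟩ : ∃ b, b = (r 6 + b5) % 2 := ⟨_, rfl⟩
  obtain ⟨b7, e7⟩ : ∃ b, b = (r 7 + b6) % 2 := ⟨_, rfl⟩
  obtain ⟨b8, e8⟩ : ∃ b, b = (r 8 + b7) % 2 := ⟨_, rfl⟩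
  obtain ⟨b9, e9⟩ : ∃ b, b = (r 9 + b8) % 2 := ⟨_, rfl⟩
  obtain ⟨I, hI⟩ : ∃ I, I = bl b1 1 ++ (bl b2 2 ++ (bl b3 3 ++ (bl b4 4 ++ (bl b5 5 ++
    (bl b6 6 ++ (bl b7 7 ++ (bl b8 8 ++ bl b9 9))))))) := ⟨_, rfl⟩
  have hsum : ∀ f : ℕ → ℕ, (I.map f).sum = b1 * f 1 + (b2 * f 2 + (b3 * f 3 + (b4 * f 4 +
      (b5 * f 5 + (b6 * f 6 + (b7 * f 7 + (b8 * f 8 + b9 * f 9))))))) := by
    intro f
    rw [hI]
    simp only [List.map_append, List.sum_append]
    rw [bl_sum b1 1 (by omega), bl_sum b2 2 (by omega), bl_sum b3 3 (by omega),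
      bl_sum b4 4 (by omega), bl_sum b5 5 (by omega), bl_sum b6 6 (by omega),
      bl_sum b7 7 (by omega), bl_sum b8 8 (by omega), bl_sum b9 9 (by omega)]
  refine ⟨I, fun d => (r d - (I.map (fun g => gv g d)).sum) / 2, ?_, ?_, ?_⟩
  · rw [hI]
    simp only [List.length_append]
    have a1 := bl_len b1 1
    have a2 := bl_len b2 2
    have a3 := bl_len b3 3
    have a4 := bl_len b4 4
    have a5 := bl_len b5 5
    have a6 := bl_len b6 6
    have a7 := bl_len b7 7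
    have a8 := bl_len b8 8
    have a9 := bl_len b9 9
    omega
  · intro g hg
    rw [hI] at hg
    simp only [List.mem_append] at hg
    rcases hg with h | h | h | h | h | h | h | h | h <;> (have := bl_mem _ _ _ h; omega)
  · intro d hd1 hd9
    have hs := hsum (fun g => gv g d)
    simp only [hs]
    interval_cases d <;> simp [gv, cnt] <;> omega

end Pool.RT
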